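import Mathlib
import Pool.Agent.L7h85.PW.Stm
import Pool.Agent.L7h32.RL.Bas
import Pool.Agent.L7h26.RL.Log

/-!
# Project PW (helper85): [SUMW], [ORT], [DIM]
-/

set_option autoImplicit false

namespace Pool.Agent.L7h60.PW

open Finset Pool.Agent.L7h85.RL Pool.Agent.L7h85.PW Pool.Agent.L7h32.RL

universe u v

variable {Ob : Type u}

lemma dual_left (𝒮 : Sys Ob) (X C : Ob) : 𝒮.h (𝒮.dual X) C = 𝒮.h X (𝒮.dual C) := by
  rw [← 𝒮.dual_h X (𝒮.dual C), 𝒮.h_symm (𝒮.dual X) (𝒮.dual (𝒮.dual C)), 𝒮.dual_dual,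
    𝒮.h_symm C]

/-- **[SUMW]** -/
theorem s_SUMW : S_SUMW.{u} := by
  intro Ob 𝒮 V Λ _ U hU n
  induction n with
  | zero =>
    refine ⟨fun C => ?_, fun x => ?_⟩
    · show 𝒮.h V C = ∑ x : Fin 1 → Λ, 𝒮.h (U (x 0)) C
      rw [hU]
      exact (Fintype.sum_equiv (Equiv.funUnique (Fin 1) Λ) (fun x => 𝒮.h (U (x 0)) C)
        (fun a => 𝒮.h (U a) C) fun x => rfl).symm
    · show 𝒮.dim (U (x 0)) = ∏ i : Fin 1, 𝒮.dim (U (x i))
      rw [Fin.prod_univ_one]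
  | succ n ih =>
    refine ⟨fun C => ?_, fun x => ?_⟩
    · show 𝒮.h (𝒮.ten V (𝒮.pw V n)) C = _
      have h1 : ∀ a, 𝒮.h (𝒮.ten (U a) (𝒮.pw V n)) C =
          ∑ x : Fin (n + 1) → Λ, 𝒮.h (𝒮.ten (U a) (wd 𝒮 U n x)) C := by
        intro a
        rw [𝒮.comm, 𝒮.adj, ih.1]
        refine Finset.sum_congr rfl fun x _ => ?_
        rw [𝒮.comm (U a), 𝒮.adj]
      rw [𝒮.adj, hU]
      calc ∑ a, 𝒮.h (U a) (𝒮.ten C (𝒮.dual (𝒮.pw V n)))
          = ∑ a, ∑ x : Fin (n + 1) → Λ, 𝒮.h (𝒮.ten (U a) (wd 𝒮 U n x)) C := by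
            refine Finset.sum_congr rfl fun a _ => ?_
            rw [← 𝒮.adj, h1]
        _ = ∑ z : Λ × (Fin (n + 1) → Λ), 𝒮.h (𝒮.ten (U z.1) (wd 𝒮 U n z.2)) C := by
            rw [Fintype.sum_prod_type]
        _ = _ := by
            refine Fintype.sum_equiv (Fin.consEquiv fun _ => Λ) _ _ fun z => ?_
            rfl
    · show 𝒮.dim (𝒮.ten (U (x 0)) (wd 𝒮 U n (Fin.tail x))) = _
      rw [𝒮.dim_ten, ih.2]
      exact (Fin.prod_univ_succ fun i => 𝒮.dim (U (x i))).symm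

lemma Sub.sr {𝒮 : Sys Ob} {a b : Qt 𝒮} (h : Sub a b) :
    Sub (Pool.Agent.L7h32.RL.sr a) (Pool.Agent.L7h32.RL.sr b) := by
  intro c hc
  rw [← sr_sr c, hh_sr] at hc ⊢
  exact h _ hc

/-- **[ORT]** -/
theorem s_ORT : S_ORT.{u, v} := by
  intro Ob 𝒮 T hT V Λ _ U Γ _ g hD n x y hxy
  by_contra hne
  obtain ⟨S, hS, hSx, hSy⟩ := exists_simple hne
  have hSd : 0 < 𝒮.dim (𝒮.ten S (𝒮.dual S)) := by
    rw [𝒮.dim_ten, 𝒮.dim_dual]
    exact Nat.mul_pos (Pool.Agent.L7h26.RL.dpos 𝒮 hS) (Pool.Agent.L7h26.RL.dpos 𝒮 hS)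
  obtain ⟨S', hS', hS'S, -⟩ := exists_simple (h_self_pos hSd)
  have hx : Sub (cl 𝒮 S) (cl 𝒮 (wd 𝒮 U n x)) := by
    intro c hc
    induction c using Quotient.inductionOn with | _ C
    exact Pool.Agent.L7h26.RL.ne_zero_trans 𝒮 hS hSx hc
  have hy : Sub (cl 𝒮 S) (cl 𝒮 (wd 𝒮 U n y)) := by
    intro c hc
    induction c using Quotient.inductionOn with | _ C
    exact Pool.Agent.L7h26.RL.ne_zero_trans 𝒮 hS hSy hc
  have h1 : 𝒮.h (𝒮.ten (wd 𝒮 U n x) (𝒮.dual (wd 𝒮 U n x))) S' ≠ 0 :=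
    (hx.mul (Sub.sr hx)) (cl 𝒮 S') (by
      show 𝒮.h (𝒮.ten S (𝒮.dual S)) S' ≠ 0
      rwa [𝒮.h_symm])
  have h2 : 𝒮.h (𝒮.ten (wd 𝒮 U n x) (𝒮.dual (wd 𝒮 U n y))) S' ≠ 0 :=
    (hx.mul (Sub.sr hy)) (cl 𝒮 S') (by
      show 𝒮.h (𝒮.ten S (𝒮.dual S)) S' ≠ 0
      rwa [𝒮.h_symm])
  have hTS : T S' := hT.sub (hD.mem n x x rfl) hS' (by rwa [𝒮.h_symm])
  have h3 := hD.no n x y hxy S' hS' hTS
  rw [𝒮.h_symm] at h3
  exact h2 h3

/-- the expansion of `wq V n` in pairs of words -/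
lemma wq_sum (𝒮 : Sys Ob) (V : Ob) (Λ : Type) [Fintype Λ] (U : Λ → Ob)
    (hU : ∀ C, 𝒮.h V C = ∑ a, 𝒮.h (U a) C) (n : ℕ) (C : Ob) :
    𝒮.h (𝒮.wq V n) C = ∑ x : Fin (n + 1) → Λ, ∑ y : Fin (n + 1) → Λ,
      𝒮.h (𝒮.ten (wd 𝒮 U n x) (𝒮.dual (wd 𝒮 U n y))) C := by
  have hs := (s_SUMW 𝒮 V Λ U hU n).1
  show 𝒮.h (𝒮.ten (𝒮.pw V n) (𝒮.dual (𝒮.pw V n))) C = _
  rw [𝒮.adj, hs]
  refine Finset.sum_congr rfl fun x _ => ?_
  rw [← 𝒮.adj, 𝒮.comm, 𝒮.adj, dual_left, hs]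
  refine Finset.sum_congr rfl fun y _ => ?_
  rw [← dual_left, 𝒮.comm (wd 𝒮 U n x), 𝒮.adj]

open Classical in
/-- **[DIM]** -/
theorem s_DIM : S_DIM.{u, v} := by
  intro Ob 𝒮 T hT V Λ _ U Γ _ g hD n O R hO
  obtain ⟨r⟩ := Pool.Agent.L7h26.RL.s_REP 𝒮
  have hv : ∀ A i, 𝒮.h A (r.s i) = r.v A i := by
    intro A i
    rw [r.h_eq, r.v_s]
    rw [Finsupp.sum, Finset.sum_congr rfl (g := fun j => if j = i then r.v A j else 0)]
    · rw [Finset.sum_ite_eq']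
      split_ifs with h
      · rfl
      · rw [Finsupp.notMem_support_iff] at h
        exact h.symm
    · intro j _
      by_cases hj : j = i
      · subst hj
        rw [Finsupp.single_eq_same, mul_one, if_pos rfl]
      · rw [Finsupp.single_eq_of_ne (by tauto), mul_zero, if_neg hj]
  have hsi : ∀ i, 𝒮.h (r.s i) (r.s i) = 1 := by
    intro i
    rw [hv, r.v_s, Finsupp.single_eq_same]
  have hvO : r.v O = ∑ x : Fin (n + 1) → Λ, ∑ y : Fin (n + 1) → Λ,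
      if ∏ i, g (x i) = ∏ i, g (y i) then
        r.v (𝒮.ten (wd 𝒮 U n x) (𝒮.dual (wd 𝒮 U n y))) else 0 := by
    ext i
    rw [Finsupp.finsetSum_apply]
    simp only [Finsupp.finsetSum_apply]
    rw [← hv]
    by_cases hTi : T (r.s i)
    · rw [hom_part hT hO hTi, wq_sum 𝒮 V Λ U hD.sum]
      refine Finset.sum_congr rfl fun x _ => Finset.sum_congr rfl fun y _ => ?_
      split_ifs with h
      · exact hv _ _
      · have := hD.no n x y h (r.s i) (hsi i) hTi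
        rw [𝒮.h_symm] at this
        rw [this]
        rfl
    · have h1 : ∀ A, T A → 𝒮.h A (r.s i) = 0 := by
        intro A hA
        by_contra hne
        rw [𝒮.h_symm] at hne
        exact hTi (hT.sub hA (hsi i) hne)
      rw [h1 O hO.mem]
      symm
      refine Finset.sum_eq_zero fun x _ => Finset.sum_eq_zero fun y _ => ?_
      split_ifs with h
      · rw [← hv]
        exact h1 _ (hD.mem n x y h)
      · rfl
  have hdz : ∀ i, (0 : ℕ) * 𝒮.dim (r.s i) = 0 := fun i => zero_mul _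
  have hda : ∀ i (a b : ℕ), (a + b) * 𝒮.dim (r.s i) = a * 𝒮.dim (r.s i) + b * 𝒮.dim (r.s i) :=
    fun i a b => add_mul _ _ _
  rw [r.dim_eq, hvO, ← Finsupp.sum_finsetSum_index hdz hda]
  refine Finset.sum_congr rfl fun x _ => ?_
  rw [← Finsupp.sum_finsetSum_index hdz hda]
  refine Finset.sum_congr rfl fun y _ => ?_
  have hdw := (s_SUMW 𝒮 V Λ U hD.sum n).2
  split_ifs with h
  · rw [← r.dim_eq, 𝒮.dim_ten, 𝒮.dim_dual, hdw, hdw]
  · exact Finsupp.sum_zero_index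

end Pool.Agent.L7h60.PW
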