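import Mathlib
import Pool.Agent.L7h60.PW.Words
import Pool.Agent.L7h73.RL.Sch

/-!
# Project PW (helper85): [WEN]
-/

set_option autoImplicit false

namespace Pool.Agent.L7h60.PW

open Finset Pool.Agent.L7h85.RL Pool.Agent.L7h85.PW Pool.Agent.L7h32.RL

universe u v

variable {Ob : Type u}

/-- the class of a word -/
lemma cl_wd (𝒮 : Sys Ob) {Λ : Type*} (U : Λ → Ob) (n : ℕ) (x : Fin (n + 1) → Λ) :
    (cl 𝒮 (wd 𝒮 U n x) : WithOne (Qt 𝒮)) = ∏ i, (cl 𝒮 (U (x i)) : WithOne (Qt 𝒮)) := by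
  induction n with
  | zero => rw [Fin.prod_univ_one]; rfl
  | succ n ih =>
    rw [Fin.prod_univ_succ]
    show (cl 𝒮 (𝒮.ten (U (x 0)) (wd 𝒮 U n (Fin.tail x))) : WithOne (Qt 𝒮)) = _
    rw [cl_ten, WithOne.coe_mul, ih]
    rfl

lemma h_of_cl {𝒮 : Sys Ob} {A B : Ob} (h : (cl 𝒮 A : WithOne (Qt 𝒮)) = (cl 𝒮 B : WithOne (Qt 𝒮))) :
    𝒮.h A A = 𝒮.h B B := by
  have h1 : cl 𝒮 A = cl 𝒮 B := WithOne.coe_inj.1 h
  rw [← hh_cl, ← hh_cl, h1]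

/-- the Schur test for one object -/
lemma scf_one (𝒮 : Sys Ob) (A B : Ob) :
    𝒮.h (𝒮.ten A B) (𝒮.ten A B) ≤ 𝒮.dim B ^ 2 * 𝒮.h A A := by
  have h := (Pool.Agent.L7h73.RL.s_SCF Pool.Agent.L7h26.RL.s_REP 𝒮 A PUnit.{u + 1} (fun _ => 1) (fun _ => B)).2
  simpa using h

lemma wen_aux (𝒮 : Sys Ob) {ι : Type*} (F : Finset ι) (W : ι → Ob) (X : Ob) :
    ∀ P : Ob, (cl 𝒮 X : WithOne (Qt 𝒮)) =
      (cl 𝒮 P : WithOne (Qt 𝒮)) * ∏ i ∈ F, (cl 𝒮 (W i) : WithOne (Qt 𝒮)) →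
    𝒮.h X X ≤ (∏ i ∈ F, 𝒮.dim (W i)) ^ 2 * 𝒮.h P P := by
  classical
  induction F using Finset.induction_on with
  | empty =>
    intro P hP
    rw [Finset.prod_empty, mul_one] at hP
    rw [Finset.prod_empty, one_pow, one_mul, h_of_cl hP]
  | insert j F hj ih =>
    intro P hP
    rw [Finset.prod_insert hj, ← mul_assoc, ← WithOne.coe_mul, ← cl_ten] at hP
    have h1 := ih _ hP
    have h2 := scf_one 𝒮 P (W j)
    rw [Finset.prod_insert hj]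
    calc 𝒮.h X X ≤ (∏ i ∈ F, 𝒮.dim (W i)) ^ 2 * 𝒮.h (𝒮.ten P (W j)) (𝒮.ten P (W j)) := h1
      _ ≤ (∏ i ∈ F, 𝒮.dim (W i)) ^ 2 * (𝒮.dim (W j) ^ 2 * 𝒮.h P P) :=
          Nat.mul_le_mul_left _ h2
      _ = (𝒮.dim (W j) * ∏ i ∈ F, 𝒮.dim (W i)) ^ 2 * 𝒮.h P P := by ring

open Classical in
/-- **[WEN]** -/
theorem s_WEN : S_WEN.{u} := by
  intro Ob 𝒮 Λ _ U a₀ n k x hk
  refine wen_aux 𝒮 (univ.filter fun i => x i ≠ a₀) (fun i => U (x i)) (wd 𝒮 U n x)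
    (𝒮.pw (U a₀) k) ?_
  rw [cl_wd, cl_pw, ← Finset.prod_filter_mul_prod_filter_not univ (fun i => x i = a₀)]
  congr 1
  rw [← hk, ← Finset.prod_const]
  refine Finset.prod_congr rfl fun i hi => ?_
  rw [(Finset.mem_filter.1 hi).2]

end Pool.Agent.L7h60.PW
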