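import Mathlib
import Pool.Agent.L7h85.PW.Stm3
import Pool.Agent.L7h60.PW.Tail

/-!
# Project PW (helper85): [TAILG]
-/

set_option autoImplicit false

namespace Pool.Agent.L7h60.PW

open Finset

/-- polynomial times exponential is bounded -/
lemma exists_boundG (s : ℕ) (γ : ℝ) {η : ℝ} (hη : 0 < η) : ∃ K : ℝ, 0 < K ∧ ∀ N : ℕ,
    Real.exp (-η * (N + 1 : ℕ)) * ((N : ℝ) + 2) ^ s ≤ K / ((N : ℝ) + 1) ^ γ := by
  have h1 : |Real.exp (-η)| < 1 := by
    rw [abs_of_pos (Real.exp_pos _), Real.exp_lt_one_iff]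
    linarith
  have h2 := tendsto_pow_const_mul_const_pow_of_abs_lt_one (s + ⌈γ⌉₊) h1
  obtain ⟨B, hB⟩ := h2.bddAbove_range
  have hB' : ∀ n : ℕ, (n : ℝ) ^ (s + ⌈γ⌉₊) * Real.exp (-η) ^ n ≤ B := fun n => hB ⟨n, rfl⟩
  refine ⟨|B| * Real.exp η + 1, by positivity, fun N => ?_⟩
  have h3 : (0 : ℝ) < ((N : ℝ) + 1) ^ γ := Real.rpow_pos_of_pos (by positivity) _
  rw [le_div_iff₀ h3]
  have h4 : ((N : ℝ) + 1) ^ γ ≤ ((N : ℝ) + 2) ^ ⌈γ⌉₊ := by
    calc ((N : ℝ) + 1) ^ γ ≤ ((N : ℝ) + 1) ^ ((⌈γ⌉₊ : ℕ) : ℝ) :=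
          Real.rpow_le_rpow_of_exponent_le (by linarith [Nat.cast_nonneg (α := ℝ) N]) (Nat.le_ceil γ)
      _ = ((N : ℝ) + 1) ^ ⌈γ⌉₊ := Real.rpow_natCast _ _
      _ ≤ ((N : ℝ) + 2) ^ ⌈γ⌉₊ := pow_le_pow_left₀ (by positivity) (by linarith) _
  have h5 := hB' (N + 2)
  have h6 : Real.exp (-η * (N + 1 : ℕ)) = Real.exp (-η) ^ (N + 2) * Real.exp η := by
    rw [← Real.exp_nat_mul, ← Real.exp_add]
    congr 1
    push_cast
    ring
  calc Real.exp (-η * (N + 1 : ℕ)) * ((N : ℝ) + 2) ^ s * ((N : ℝ) + 1) ^ γ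
      ≤ Real.exp (-η * (N + 1 : ℕ)) * ((N : ℝ) + 2) ^ s * ((N : ℝ) + 2) ^ ⌈γ⌉₊ :=
        mul_le_mul_of_nonneg_left h4 (by positivity)
    _ = (((N + 2 : ℕ) : ℝ) ^ (s + ⌈γ⌉₊) * Real.exp (-η) ^ (N + 2)) * Real.exp η := by
        rw [h6]
        push_cast
        ring
    _ ≤ |B| * Real.exp η := mul_le_mul_of_nonneg_right (h5.trans (le_abs_self B))
        (Real.exp_pos _).le
    _ ≤ |B| * Real.exp η + 1 := by linarith

/-- **[TAILG]** -/
theorem s_TAILG : Pool.Agent.L7h85.PW.S_TAILG := by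
  classical
  intro Λ _ d a₀ rel e C γ s hC hγ hd he he1 he2 hz
  set b : ℝ := ((∑ a, d a : ℕ) : ℝ) with hb
  have hda : (0 : ℝ) < d a₀ := by exact_mod_cast hd a₀
  have hdb : (d a₀ : ℝ) ≤ b := by
    rw [hb]
    exact_mod_cast Finset.single_le_sum (f := d) (fun a _ => Nat.zero_le _) (Finset.mem_univ a₀)
  have hb0 : 0 < b := hda.trans_le hdb
  set q : ℝ := d a₀ / b with hq
  have hq0 : 0 < q := div_pos hda hb0
  have hη := eta_pos
  set η : ℝ := q * (1 / 2 - Real.exp (-1)) with hηd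
  have hη0 : 0 < η := mul_pos hq0 hη
  obtain ⟨K, hK0, hK⟩ := exists_boundG s γ hη0
  set ε : ℝ := q / 2 with hε
  have hε0 : 0 < ε := by positivity
  have hsε : 0 < ε ^ γ := Real.rpow_pos_of_pos hε0 _
  refine ⟨C / ε ^ γ + K, by positivity, fun N => ?_⟩
  set D : (Fin (N + 1) → Λ) → ℝ := fun x => ∏ i, (d (x i) : ℝ) with hD
  have hD0 : ∀ x, 0 < D x := fun x => Finset.prod_pos fun i _ => by exact_mod_cast hd (x i)
  set k : (Fin (N + 1) → Λ) → ℕ := fun x => (univ.filter fun i => x i = a₀).card with hk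
  set z : ℝ := ∑ x, ∑ y, if rel N x y then D x * D y else 0 with hzd
  have hn0 : (0 : ℝ) < ((N : ℝ) + 1) ^ γ := Real.rpow_pos_of_pos (by positivity) _
  -- pointwise
  have hpt : ∀ x y, (if rel N x y then D y / D x * e N x else 0) ≤
      C / ε ^ γ / ((N : ℝ) + 1) ^ γ * (if rel N x y then D x * D y else 0) +
        Real.exp (ε * (N + 1 : ℕ)) * ((D x * Real.exp (-(k x : ℝ))) * D y) := by
    intro x y
    have hpos : 0 ≤ Real.exp (ε * (N + 1 : ℕ)) * ((D x * Real.exp (-(k x : ℝ))) * D y) := by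
      have := hD0 x
      have := hD0 y
      positivity
    by_cases hr : rel N x y
    · rw [if_pos hr, if_pos hr]
      have hx := hD0 x
      have hy := hD0 y
      by_cases hkx : ε * (N + 1 : ℕ) ≤ k x
      · have hk0 : 0 < k x := by
          have h1 : (0 : ℝ) < k x := lt_of_lt_of_le (by positivity) hkx
          exact_mod_cast h1
        have h1 := he2 N x hk0
        have h2 : ε ^ γ * ((N : ℝ) + 1) ^ γ ≤ (k x : ℝ) ^ γ := by
          rw [← Real.mul_rpow hε0.le (by positivity)]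
          push_cast at hkx
          exact Real.rpow_le_rpow (by positivity) hkx hγ
        have h3 : e N x ≤ C * D x ^ 2 / (ε ^ γ * ((N : ℝ) + 1) ^ γ) := by
          refine h1.trans ?_
          exact div_le_div_of_nonneg_left (by positivity) (by positivity) h2
        have h4 : D y / D x * e N x ≤ D y / D x * (C * D x ^ 2 / (ε ^ γ * ((N : ℝ) + 1) ^ γ)) :=
          mul_le_mul_of_nonneg_left h3 (by positivity)
        have h5 : D y / D x * (C * D x ^ 2 / (ε ^ γ * ((N : ℝ) + 1) ^ γ)) =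
            C / ε ^ γ / ((N : ℝ) + 1) ^ γ * (D x * D y) := by
          field_simp
        linarith
      · push Not at hkx
        have h1 := he1 N x
        have h2 : D y / D x * e N x ≤ D y / D x * D x ^ 2 :=
          mul_le_mul_of_nonneg_left h1 (by positivity)
        have h3 : D y / D x * D x ^ 2 = D x * D y := by field_simp
        have h4 : (1 : ℝ) ≤ Real.exp (ε * (N + 1 : ℕ)) * Real.exp (-(k x : ℝ)) := by
          rw [← Real.exp_add]
          exact Real.one_le_exp (by linarith)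
        have h5 : D x * D y * 1 ≤
            D x * D y * (Real.exp (ε * (N + 1 : ℕ)) * Real.exp (-(k x : ℝ))) :=
          mul_le_mul_of_nonneg_left h4 (by positivity)
        have h6 : 0 ≤ C / ε ^ γ / ((N : ℝ) + 1) ^ γ * (D x * D y) := by positivity
        nlinarith
    · rw [if_neg hr, if_neg hr, mul_zero, zero_add]
      exact hpos
  have hsum : (∑ x, ∑ y, if rel N x y then D y / D x * e N x else 0) ≤
      C / ε ^ γ / ((N : ℝ) + 1) ^ γ * z + Real.exp (ε * (N + 1 : ℕ)) *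
        ((∑ x, D x * Real.exp (-(k x : ℝ))) * ∑ y, D y) := by
    calc (∑ x, ∑ y, if rel N x y then D y / D x * e N x else 0)
        ≤ ∑ x, ∑ y, (C / ε ^ γ / ((N : ℝ) + 1) ^ γ * (if rel N x y then D x * D y else 0) +
        Real.exp (ε * (N + 1 : ℕ)) * ((D x * Real.exp (-(k x : ℝ))) * D y)) :=
          Finset.sum_le_sum fun x _ => Finset.sum_le_sum fun y _ => hpt x y
      _ = _ := by
          simp only [Finset.sum_add_distrib, ← Finset.mul_sum, Finset.sum_mul]
          rfl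
  have hDy : ∑ y, D y = b ^ (N + 1) := by
    rw [hb, Nat.cast_sum, Fintype.sum_pow]
  have hDx := sum_exp d a₀ (N + 1)
  have hbq : b - d a₀ * (1 - Real.exp (-1)) = b * (1 - q * (1 - Real.exp (-1))) := by
    rw [hq]
    field_simp
  rw [← hb, hbq] at hDx
  have hle : (b * (1 - q * (1 - Real.exp (-1)))) ^ (N + 1) ≤
      b ^ (N + 1) * Real.exp (-(q * (1 - Real.exp (-1))) * (N + 1 : ℕ)) := by
    rw [mul_pow]
    refine mul_le_mul_of_nonneg_left ?_ (by positivity)
    have h1 : 0 ≤ 1 - q * (1 - Real.exp (-1)) := by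
      have h2 : q ≤ 1 := (div_le_one hb0).2 hdb
      have h3 := Real.exp_pos (-1)
      have h4 : Real.exp (-1) < 1 := Real.exp_lt_one_iff.2 (by norm_num)
      nlinarith
    calc (1 - q * (1 - Real.exp (-1))) ^ (N + 1)
        ≤ (Real.exp (-(q * (1 - Real.exp (-1))))) ^ (N + 1) := by
          refine pow_le_pow_left₀ h1 ?_ _
          have := Real.add_one_le_exp (-(q * (1 - Real.exp (-1))))
          linarith
      _ = Real.exp (-(q * (1 - Real.exp (-1))) * (N + 1 : ℕ)) := by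
          rw [← Real.exp_nat_mul]
          congr 1
          ring
  have hfin : Real.exp (ε * (N + 1 : ℕ)) * ((∑ x, D x * Real.exp (-(k x : ℝ))) * ∑ y, D y) ≤
      K / ((N : ℝ) + 1) ^ γ * z := by
    have h1 : ∑ x, D x * Real.exp (-(k x : ℝ)) ≤
        b ^ (N + 1) * Real.exp (-(q * (1 - Real.exp (-1))) * (N + 1 : ℕ)) := by
      have h2 : ∑ x, D x * Real.exp (-(k x : ℝ)) =
          (b * (1 - q * (1 - Real.exp (-1)))) ^ (N + 1) := hDx
      rw [h2]
      exact hle
    rw [hDy]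
    calc Real.exp (ε * (N + 1 : ℕ)) * ((∑ x, D x * Real.exp (-(k x : ℝ))) * b ^ (N + 1))
        ≤ Real.exp (ε * (N + 1 : ℕ)) *
          ((b ^ (N + 1) * Real.exp (-(q * (1 - Real.exp (-1))) * (N + 1 : ℕ))) * b ^ (N + 1)) := by
          refine mul_le_mul_of_nonneg_left ?_ (Real.exp_pos _).le
          exact mul_le_mul_of_nonneg_right h1 (by positivity)
      _ = b ^ (2 * (N + 1)) * Real.exp (-η * (N + 1 : ℕ)) := by
          have h3 : Real.exp (-η * (N + 1 : ℕ)) = Real.exp (ε * (N + 1 : ℕ)) *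
              Real.exp (-(q * (1 - Real.exp (-1))) * (N + 1 : ℕ)) := by
            rw [← Real.exp_add]
            congr 1
            rw [hηd, hε]
            ring
          rw [h3]
          ring
      _ ≤ (z * ((N : ℝ) + 2) ^ s) * Real.exp (-η * (N + 1 : ℕ)) :=
          mul_le_mul_of_nonneg_right (hz N) (Real.exp_pos _).le
      _ = z * (Real.exp (-η * (N + 1 : ℕ)) * ((N : ℝ) + 2) ^ s) := by ring
      _ ≤ z * (K / ((N : ℝ) + 1) ^ γ) := by
          refine mul_le_mul_of_nonneg_left (hK N) ?_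
          refine Finset.sum_nonneg fun x _ => Finset.sum_nonneg fun y _ => ?_
          split_ifs
          · exact (mul_pos (hD0 x) (hD0 y)).le
          · exact le_rfl
      _ = K / ((N : ℝ) + 1) ^ γ * z := by ring
  calc (∑ x, ∑ y, if rel N x y then D y / D x * e N x else 0)
      ≤ C / ε ^ γ / ((N : ℝ) + 1) ^ γ * z + K / ((N : ℝ) + 1) ^ γ * z := hsum.trans (by linarith)
    _ = (C / ε ^ γ + K) / ((N : ℝ) + 1) ^ γ * z := by
        rw [← add_mul, add_div]

end Pool.Agent.L7h60.PW
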