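import Mathlib
import Pool.Agent.L7h60.PW.Wen
import Pool.Agent.L7h60.PW.Tailg
import Pool.Agent.L7h60.PW.Blk

/-!
# Project PW (helper85): [BLKG]
-/

set_option autoImplicit false

namespace Pool.Agent.L7h60.PW

open Finset Pool.Agent.L7h85.RL Pool.Agent.L7h85.PW Pool.Agent.L7h32.RL

universe u v

variable {Ob : Type u}

open Classical in
/-- **[BLKG]** -/
theorem s_BLKG : S_BLKG.{u, v} := by
  intro Ob 𝒮 T hT V O R hO Λ _ U Γ _ g hD e he a₀ C γ hC hγ hE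
  have hdim := s_DIM 𝒮 T hT V Λ U Γ g hD
  have hdw := fun n => (s_SUMW 𝒮 V Λ U hD.sum n).2
  have hort := s_ORT 𝒮 T hT V Λ U Γ g hD
  set rel : ∀ N : ℕ, (Fin (N + 1) → Λ) → (Fin (N + 1) → Λ) → Prop :=
    fun N x y => ∏ i, g (x i) = ∏ i, g (y i) with hrel
  -- the dimension of `O n`
  have hz : ∀ N, ((𝒮.dim (O N) : ℕ) : ℝ) = ∑ x, ∑ y, if rel N x y then
      (∏ i, (𝒮.dim (U (x i)) : ℝ)) * ∏ i, (𝒮.dim (U (y i)) : ℝ) else 0 := by
    intro N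
    rw [hdim N (O N) (R N) (hO N), Nat.cast_sum]
    refine Finset.sum_congr rfl fun x _ => ?_
    rw [Nat.cast_sum]
    refine Finset.sum_congr rfl fun y _ => ?_
    by_cases h : ∏ i, g (x i) = ∏ i, g (y i)
    · rw [if_pos h, if_pos h]
      push_cast
      rfl
    · rw [if_neg h, if_neg h, Nat.cast_zero]
  -- the energy of `pw V n`
  have hen : ∀ N, ((𝒮.h (𝒮.pw V N) (𝒮.pw V N) : ℕ) : ℝ) = ∑ x, ∑ y, if rel N x y then
      (𝒮.h (wd 𝒮 U N x) (wd 𝒮 U N y) : ℝ) else 0 := by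
    intro N
    rw [pw_sum 𝒮 V Λ U hD.sum, Nat.cast_sum]
    refine Finset.sum_congr rfl fun x _ => ?_
    rw [Nat.cast_sum]
    refine Finset.sum_congr rfl fun y _ => ?_
    by_cases h : ∏ i, g (x i) = ∏ i, g (y i)
    · rw [if_pos h]
    · rw [if_neg h, hort N x y h, Nat.cast_zero]
  have hle : ∀ N, ((𝒮.h (𝒮.pw V N) (𝒮.pw V N) : ℕ) : ℝ) ≤ 𝒮.dim (O N) := by
    intro N
    rw [hen, hz]
    refine Finset.sum_le_sum fun x _ => Finset.sum_le_sum fun y _ => ?_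
    split_ifs with h
    · have h1 := h_le_dim 𝒮 (wd 𝒮 U N x) (wd 𝒮 U N y)
      rw [hdw, hdw] at h1
      exact_mod_cast h1
    · exact le_rfl
  obtain ⟨C', hC', hT'⟩ := s_TAILG Λ (fun a => 𝒮.dim (U a)) a₀ rel
    (fun N x => (𝒮.h (wd 𝒮 U N x) (wd 𝒮 U N x) : ℝ)) C γ e hC hγ hD.pos
    (fun N x => Nat.cast_nonneg _)
    (fun N x => by
      have h1 := h_le_dim 𝒮 (wd 𝒮 U N x) (wd 𝒮 U N x)
      rw [hdw, ← sq] at h1
      exact_mod_cast h1)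
    (fun N x hk => by
      obtain ⟨k, hk'⟩ := Nat.exists_eq_succ_of_ne_zero hk.ne'
      have h1 := s_WEN 𝒮 Λ U a₀ N k x hk'
      have h2 := hE k
      set F : ℝ := ∏ i with x i ≠ a₀, (𝒮.dim (U (x i)) : ℝ) with hF
      have h3 : (∏ i, (𝒮.dim (U (x i)) : ℝ)) = (𝒮.dim (U a₀) : ℝ) ^ (k + 1) * F := by
        rw [hF, ← Finset.prod_filter_mul_prod_filter_not univ (fun i => x i = a₀)]
        congr 1
        rw [Finset.prod_congr rfl (g := fun _ => (𝒮.dim (U a₀) : ℝ)) (fun i hi => by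
          rw [(Finset.mem_filter.1 hi).2]), Finset.prod_const]
        exact congrArg _ hk'
      have h4 : ((𝒮.h (wd 𝒮 U N x) (wd 𝒮 U N x) : ℕ) : ℝ) ≤
          F ^ 2 * (𝒮.h (𝒮.pw (U a₀) k) (𝒮.pw (U a₀) k) : ℕ) := by
        rw [hF]
        exact_mod_cast h1
      rw [h3, hk']
      push_cast
      calc ((𝒮.h (wd 𝒮 U N x) (wd 𝒮 U N x) : ℕ) : ℝ)
          ≤ F ^ 2 * (𝒮.h (𝒮.pw (U a₀) k) (𝒮.pw (U a₀) k) : ℕ) := h4
        _ ≤ F ^ 2 * (C * (𝒮.dim (U a₀) : ℝ) ^ (2 * (k + 1)) / ((k : ℝ) + 1) ^ γ) :=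
            mul_le_mul_of_nonneg_left h2 (sq_nonneg _)
        _ = C * ((𝒮.dim (U a₀) : ℝ) ^ (k + 1) * F) ^ 2 / ((k : ℝ) + 1) ^ γ := by ring)
    (fun N => by
      have h1 := he N
      have h2 : ((𝒮.dim V ^ (2 * (N + 1)) : ℕ) : ℝ) ≤
          ((𝒮.h (𝒮.pw V N) (𝒮.pw V N) * (N + 2) ^ e : ℕ) : ℝ) := by exact_mod_cast h1
      rw [← hz, ← hD.dim]
      push_cast at h2
      exact h2.trans (mul_le_mul_of_nonneg_right (hle N) (by positivity)))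
  refine ⟨1 / C', by positivity, fun n => ?_⟩
  have hn0 : (0 : ℝ) < ((n : ℝ) + 1) ^ γ := Real.rpow_pos_of_pos (by positivity) _
  have hT'' := hT' n
  rw [← hz] at hT''
  have hDp : ∀ x : Fin (n + 1) → Λ, (0 : ℝ) < ∏ i, (𝒮.dim (U (x i)) : ℝ) := fun x =>
    Finset.prod_pos fun i _ => by exact_mod_cast hD.pos (x i)
  -- the symmetric sum
  have hsym : ((𝒮.h (𝒮.pw V n) (𝒮.pw V n) : ℕ) : ℝ) ≤ ∑ x, ∑ y, if rel n x y then
      (∏ i, (𝒮.dim (U (y i)) : ℝ)) / (∏ i, (𝒮.dim (U (x i)) : ℝ)) *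
        (𝒮.h (wd 𝒮 U n x) (wd 𝒮 U n x) : ℝ) else 0 := by
    set A : (Fin (n + 1) → Λ) → (Fin (n + 1) → Λ) → ℝ := fun x y => if rel n x y then
      (∏ i, (𝒮.dim (U (y i)) : ℝ)) / (∏ i, (𝒮.dim (U (x i)) : ℝ)) *
        (𝒮.h (wd 𝒮 U n x) (wd 𝒮 U n x) : ℝ) else 0 with hA
    have h1 : ∀ x y, (if rel n x y then (𝒮.h (wd 𝒮 U n x) (wd 𝒮 U n y) : ℝ) else 0) ≤
        (A x y + A y x) / 2 := by
      intro x y
      by_cases h : rel n x y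
      · have h' : rel n y x := h.symm
        rw [hA]
        simp only [if_pos h, if_pos h']
        have hx := hDp x
        have hy := hDp y
        refine am (by positivity) (by positivity) ?_
        have h2 := cs_one 𝒮 (wd 𝒮 U n x) (wd 𝒮 U n y)
        have h3 : (𝒮.h (wd 𝒮 U n x) (wd 𝒮 U n y) : ℝ) ^ 2 ≤
            𝒮.h (wd 𝒮 U n x) (wd 𝒮 U n x) * 𝒮.h (wd 𝒮 U n y) (wd 𝒮 U n y) := by
          exact_mod_cast h2
        refine h3.trans (le_of_eq ?_)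
        field_simp
      · have h' : ¬ rel n y x := fun h' => h h'.symm
        rw [hA]
        simp only [if_neg h, if_neg h']
        norm_num
    rw [hen]
    calc (∑ x, ∑ y, if rel n x y then (𝒮.h (wd 𝒮 U n x) (wd 𝒮 U n y) : ℝ) else 0)
        ≤ ∑ x, ∑ y, (A x y + A y x) / 2 :=
          Finset.sum_le_sum fun x _ => Finset.sum_le_sum fun y _ => h1 x y
      _ = ((∑ x, ∑ y, A x y) + ∑ x, ∑ y, A y x) / 2 := by
          simp only [← Finset.sum_div, Finset.sum_add_distrib]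
      _ = ∑ x, ∑ y, A x y := by
          rw [Finset.sum_comm (f := fun x y => A y x)]
          ring
  have h1 := hsym.trans hT''
  have h2 : ((n : ℝ) + 1) ^ γ * ((𝒮.h (𝒮.pw V n) (𝒮.pw V n) : ℕ) : ℝ) ≤ C' * 𝒮.dim (O n) := by
    calc ((n : ℝ) + 1) ^ γ * ((𝒮.h (𝒮.pw V n) (𝒮.pw V n) : ℕ) : ℝ)
        ≤ ((n : ℝ) + 1) ^ γ * (C' / ((n : ℝ) + 1) ^ γ * 𝒮.dim (O n)) :=
          mul_le_mul_of_nonneg_left h1 hn0.le
      _ = C' * 𝒮.dim (O n) := by field_simp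
  calc 1 / C' * ((n : ℝ) + 1) ^ γ * ((𝒮.h (𝒮.pw V n) (𝒮.pw V n) : ℕ) : ℝ)
      = 1 / C' * (((n : ℝ) + 1) ^ γ * ((𝒮.h (𝒮.pw V n) (𝒮.pw V n) : ℕ) : ℝ)) := by ring
    _ ≤ 1 / C' * (C' * 𝒮.dim (O n)) := mul_le_mul_of_nonneg_left h2 (by positivity)
    _ = 𝒮.dim (O n) := by field_simp

end Pool.Agent.L7h60.PW
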